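import Pool.Agent.TH581.HH.Stm

/-!
Facets of a polytope meet in null sets; the inequality with the sums over the facets gives the
inequality for the polytope.
-/

set_option autoImplicit false

noncomputable section

open MeasureTheory Set
open scoped ENNReal NNReal Pointwise

namespace Pool.Agent.TH581.HH

namespace Nul

lemma isClosed_Poly {n N : ℕ} (ν : Fin N → E n) (b : Fin N → ℝ) : IsClosed (Poly ν b) := by
  have : Poly ν b = ⋂ i, {x | inner ℝ (ν i) x ≤ b i} := by ext; simp [Poly]
  rw [this]
  exact isClosed_iInter fun i => isClosed_le (by fun_prop) continuous_const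

lemma isClosed_Fac {n N : ℕ} (ν : Fin N → E n) (b : Fin N → ℝ) (i : Fin N) :
    IsClosed (Fac ν b i) := by
  have : Fac ν b i = Poly ν b ∩ {x | inner ℝ (ν i) x = b i} := rfl
  rw [this]
  exact (isClosed_Poly ν b).inter (isClosed_eq (by fun_prop) continuous_const)

lemma fac_not_int {n N : ℕ} {ν : Fin N → E n} {b : Fin N → ℝ} (h1 : ∀ i, ‖ν i‖ = 1)
    {i : Fin N} {x : E n} (hx : x ∈ interior (Poly ν b)) : inner ℝ (ν i) x < b i := by
  obtain ⟨ε, hε, hb⟩ := Metric.isOpen_iff.1 isOpen_interior x hx
  have h2 : x + (ε / 2) • ν i ∈ Poly ν b := by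
    refine interior_subset (hb ?_)
    rw [Metric.mem_ball, dist_eq_norm, add_sub_cancel_left, norm_smul, h1, mul_one,
      Real.norm_eq_abs, abs_of_pos (by positivity)]
    linarith
  have h3 := h2 i
  rw [inner_add_right, inner_smul_right, real_inner_self_eq_norm_sq, h1] at h3
  linarith

lemma frontier_eq {n N : ℕ} {ν : Fin N → E n} {b : Fin N → ℝ} (h1 : ∀ i, ‖ν i‖ = 1) :
    frontier (Poly ν b) = ⋃ i, Fac ν b i := by
  rw [(isClosed_Poly ν b).frontier_eq]
  ext x
  simp only [mem_sdiff, mem_iUnion]
  constructor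
  · rintro ⟨hx, hn⟩
    by_contra hc
    push Not at hc
    apply hn
    have ho : IsOpen {y : E n | ∀ i, inner ℝ (ν i) y < b i} := by
      have : {y : E n | ∀ i, inner ℝ (ν i) y < b i} = ⋂ i, {y | inner ℝ (ν i) y < b i} := by
        ext; simp
      rw [this]
      exact isOpen_iInter_of_finite fun i => isOpen_lt (by fun_prop) continuous_const
    have hs : {y : E n | ∀ i, inner ℝ (ν i) y < b i} ⊆ Poly ν b := fun y hy i => (hy i).le
    refine (interior_maximal hs ho) fun i => ?_
    exact lt_of_le_of_ne (hx i) fun he => hc i ⟨hx, he⟩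
  · rintro ⟨i, hx, he⟩
    refine ⟨hx, fun hi => ?_⟩
    exact absurd he (fac_not_int h1 hi).ne

lemma null_inter {m N : ℕ} {ν : Fin N → E (m + 1)} {b : Fin N → ℝ} (hm : 1 ≤ m)
    (hG : Good ν b) {i j : Fin N} (hij : i ≠ j) :
    (μHE[m] : Measure (E (m + 1))) (Fac ν b i ∩ Fac ν b j) = 0 := by
  rcases Set.eq_empty_or_nonempty (Fac ν b i ∩ Fac ν b j) with he | ⟨x₀, hi, hj⟩
  · rw [he]; exact measure_empty
  have hni : ν i ≠ 0 := by
    intro h0
    have := hG.unit i
    rw [h0, norm_zero] at this
    exact zero_ne_one this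
  have hli : LinearIndependent ℝ ![ν i, ν j] := by
    rw [LinearIndependent.pair_iff' hni]
    intro a ha
    have h2 : |a| = 1 := by
      have := hG.unit j
      rwa [← ha, norm_smul, hG.unit i, mul_one, Real.norm_eq_abs] at this
    have h3 : b j = a * b i := by
      rw [← hj.2, ← ha, real_inner_smul_left, hi.2]
    rcases (abs_eq zero_le_one).1 h2 with h | h
    · subst h
      rw [one_smul] at ha
      rw [one_mul] at h3
      exact hij (hG.inj i j ha h3.symm)
    · subst h
      obtain ⟨y, hy⟩ := hG.int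
      have h4 := fac_not_int hG.unit (i := i) hy
      have h5 := fac_not_int hG.unit (i := j) hy
      rw [← ha, real_inner_smul_left, h3] at h5
      linarith
  set K : Submodule ℝ (E (m + 1)) := Submodule.span ℝ (Set.range ![ν i, ν j]) with hK
  have hfK : Module.finrank ℝ K = 2 := by
    rw [hK, finrank_span_eq_card hli]; simp
  have hfO : Module.finrank ℝ Kᗮ = m - 1 := by
    have := Submodule.finrank_add_finrank_orthogonal K
    rw [hfK, finrank_euclideanSpace, Fintype.card_fin] at this
    omega
  have hiso : Isometry (fun w : Kᗮ => x₀ + (w : E (m + 1))) :=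
    (isometry_add_left x₀).comp isometry_subtype_coe
  have hsub : Fac ν b i ∩ Fac ν b j ⊆ (fun w : Kᗮ => x₀ + (w : E (m + 1))) '' univ := by
    rintro y ⟨hyi, hyj⟩
    have hmem : y - x₀ ∈ Kᗮ := by
      rw [Submodule.mem_orthogonal]
      intro u hu
      induction hu using Submodule.span_induction with
      | mem u hu =>
        obtain ⟨k, rfl⟩ := hu
        fin_cases k
        · change inner ℝ (ν i) (y - x₀) = 0
          rw [inner_sub_right, hyi.2, hi.2, sub_self]
        · change inner ℝ (ν j) (y - x₀) = 0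
          rw [inner_sub_right, hyj.2, hj.2, sub_self]
      | zero => exact inner_zero_left _
      | add u v _ _ h1 h2 => rw [inner_add_left, h1, h2, add_zero]
      | smul c u _ h1 => rw [real_inner_smul_left, h1, mul_zero]
    exact ⟨⟨y - x₀, hmem⟩, mem_univ _, by simp⟩
  have hdim : dimH (Fac ν b i ∩ Fac ν b j) < ((m : ℝ≥0) : ℝ≥0∞) := by
    refine (dimH_mono hsub).trans_lt ?_
    rw [hiso.dimH_image, Real.dimH_univ_eq_finrank, hfO]
    have : m - 1 < m := by omega
    exact_mod_cast this
  have h0 := hausdorffMeasure_of_dimH_lt hdim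
  simp only [Measure.euclideanHausdorffMeasure_def, Measure.smul_apply]
  have h0' : (μH[(m : ℝ)] : Measure (E (m + 1))) (Fac ν b i ∩ Fac ν b j) = 0 := by
    simpa using h0
  rw [h0', smul_zero]

end Nul

open Nul in
/-- the inequality with the sums over the facets gives the inequality for polytopes -/
theorem t_poly (h : S_SUM) : S_POLY := by
  intro m N ν b hm hG f hf hf0 hfc
  have h1 := h m N ν b hG f hf hf0 hfc
  have h2 : ∫⁻ x in frontier (Poly ν b), ENNReal.ofReal (f x) ∂(μHE[m] : Measure (E (m + 1))) =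
      ∑ i, ∫⁻ x in Fac ν b i, ENNReal.ofReal (f x) ∂(μHE[m] : Measure (E (m + 1))) := by
    rw [frontier_eq hG.unit, lintegral_iUnion₀, tsum_fintype]
    · exact fun i => (isClosed_Fac ν b i).measurableSet.nullMeasurableSet
    · intro i j hij
      exact null_inter hm hG hij
  have h3 : (μHE[m] : Measure (E (m + 1))) (frontier (Poly ν b)) ≤
      ∑ i, (μHE[m] : Measure (E (m + 1))) (Fac ν b i) := by
    rw [frontier_eq hG.unit]
    exact measure_iUnion_fintype_le _ _
  rw [h2]
  exact (mul_le_mul' h3 le_rfl).trans h1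

end Pool.Agent.TH581.HH
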